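import Pool.Agent.H27.MS.Stmts

set_option autoImplicit false

/-!
Module MEA: measurability of the Reiter functions.
-/

namespace MS

open TopologicalSpace MeasureTheory Filter Topology

/-- minimal subshifts over the alphabet `{0, …, N-1}` -/
abbrev MeaP (N : ℕ) : Type := {X : NC // IsMinSubshift X ∧ ∀ x ∈ X, ∀ i, x i < N}

theorem mea_cont_sh (n : ℤ) : Continuous (sh n) :=
  continuous_pi fun i => continuous_apply (i + n)

theorem mea_sh_sh (n k : ℤ) (x : ℤ → ℕ) : sh n (sh k x) = sh (n + k) x := by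
  funext i
  simp only [sh]
  congr 1
  ring

theorem mea_sh_mem {X : NC} (h : IsMinSubshift X) (n : ℤ) : ∀ x ∈ X, sh n x ∈ X := by
  have h1 : ∀ x ∈ X, sh 1 x ∈ X := by
    intro x hx
    have : shift x ∈ (shift '' (X : Set (ℤ → ℕ))) := ⟨x, hx, rfl⟩
    rw [h.1] at this
    exact this
  have h2 : ∀ x ∈ X, sh (-1) x ∈ X := by
    intro x hx
    have hx' : x ∈ (X : Set (ℤ → ℕ)) := hx
    rw [← h.1] at hx'
    obtain ⟨y, hy, rfl⟩ := hx'
    have : sh (-1) (shift y) = y := by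
      funext i
      simp [sh, shift]
    rw [this]
    exact hy
  induction n using Int.induction_on with
  | zero =>
    intro x hx
    have : sh 0 x = x := by
      funext i
      simp [sh]
    rw [this]
    exact hx
  | succ k ih =>
    intro x hx
    have := h1 _ (ih x hx)
    rw [mea_sh_sh] at this
    rwa [add_comm]
  | pred k ih =>
    intro x hx
    have := h2 _ (ih x hx)
    rw [mea_sh_sh] at this
    have h3 : (-1 : ℤ) + -(k : ℤ) = -(k : ℤ) - 1 := by ring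
    rwa [h3] at this

/-- conditions on pairs of points -/
def MeaCond (A B : (ℤ → ℕ) → (ℤ → ℕ)) (X : NC) (C : Set (ℤ → ℕ)) : Prop :=
  ∀ x ∈ X, ∀ x' ∈ X, ∀ n : ℕ, x ∈ C → x' ∈ C → sh n x ∈ C → sh n x' ∈ C →
    (∀ i : ℤ, 0 ≤ i → i < n → A x i = A x' i) → ∀ i : ℤ, 0 ≤ i → i < n → B x i = B x' i

theorem mea_open_eq {A : (ℤ → ℕ) → (ℤ → ℕ)} (hA : Continuous A) (i : ℤ) :
    IsOpen {p : (ℤ → ℕ) × (ℤ → ℕ) | A p.1 i = A p.2 i} := by
  have hc : Continuous fun p : (ℤ → ℕ) × (ℤ → ℕ) => (A p.1 i, A p.2 i) :=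
    ((continuous_apply i).comp (hA.comp continuous_fst)).prodMk
      ((continuous_apply i).comp (hA.comp continuous_snd))
  exact (isOpen_discrete {q : ℕ × ℕ | q.1 = q.2}).preimage hc

theorem mea_open_ne {A : (ℤ → ℕ) → (ℤ → ℕ)} (hA : Continuous A) (i : ℤ) :
    IsOpen {p : (ℤ → ℕ) × (ℤ → ℕ) | A p.1 i ≠ A p.2 i} := by
  have hc : Continuous fun p : (ℤ → ℕ) × (ℤ → ℕ) => (A p.1 i, A p.2 i) :=
    ((continuous_apply i).comp (hA.comp continuous_fst)).prodMk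
      ((continuous_apply i).comp (hA.comp continuous_snd))
  exact (isOpen_discrete {q : ℕ × ℕ | q.1 ≠ q.2}).preimage hc

theorem mea_cond_open {A B : (ℤ → ℕ) → (ℤ → ℕ)} (hA : Continuous A) (hB : Continuous B)
    {C : Set (ℤ → ℕ)} (hC : IsOpen C) :
    IsOpen {p : (ℤ → ℕ) × (ℤ → ℕ) | ∃ n : ℕ, p.1 ∈ C ∧ p.2 ∈ C ∧ sh n p.1 ∈ C ∧ sh n p.2 ∈ C ∧
      (∀ i ∈ Finset.Ico (0 : ℤ) n, A p.1 i = A p.2 i) ∧
      ∃ i ∈ Finset.Ico (0 : ℤ) n, B p.1 i ≠ B p.2 i} := by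
  have : {p : (ℤ → ℕ) × (ℤ → ℕ) | ∃ n : ℕ, p.1 ∈ C ∧ p.2 ∈ C ∧ sh n p.1 ∈ C ∧ sh n p.2 ∈ C ∧
      (∀ i ∈ Finset.Ico (0 : ℤ) n, A p.1 i = A p.2 i) ∧
      ∃ i ∈ Finset.Ico (0 : ℤ) n, B p.1 i ≠ B p.2 i} =
      ⋃ n : ℕ, (Prod.fst ⁻¹' C) ∩ ((Prod.snd ⁻¹' C) ∩ (((fun p => sh n p.1) ⁻¹' C) ∩
        (((fun p => sh n p.2) ⁻¹' C) ∩
        ((⋂ i ∈ Finset.Ico (0 : ℤ) n, {p : (ℤ → ℕ) × (ℤ → ℕ) | A p.1 i = A p.2 i}) ∩
        (⋃ i ∈ Finset.Ico (0 : ℤ) n, {p : (ℤ → ℕ) × (ℤ → ℕ) | B p.1 i ≠ B p.2 i}))))) := by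
    ext p
    simp only [Set.mem_setOf_eq, Set.mem_iUnion, Set.mem_inter_iff, Set.mem_preimage,
      Set.mem_iInter, exists_prop]
  rw [this]
  refine isOpen_iUnion fun n => ?_
  refine (hC.preimage continuous_fst).inter ((hC.preimage continuous_snd).inter
    ((hC.preimage ((mea_cont_sh n).comp continuous_fst)).inter
      ((hC.preimage ((mea_cont_sh n).comp continuous_snd)).inter (IsOpen.inter ?_ ?_))))
  · exact isOpen_biInter_finset fun i _ => mea_open_eq hA i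
  · exact isOpen_biUnion fun i _ => mea_open_ne hB i

theorem mea_cond_meas (hV : VIEStmt) {A B : (ℤ → ℕ) → (ℤ → ℕ)} (hA : Continuous A)
    (hB : Continuous B) {C : Set (ℤ → ℕ)} (hC : IsOpen C) :
    MeasurableSet {X : NC | MeaCond A B X C} := by
  have h := (hV.1 _ (mea_cond_open hA hB hC)).measurableSet.compl
  convert h using 1
  ext X
  simp only [MeaCond, Set.mem_setOf_eq, Set.mem_compl_iff, Finset.mem_Ico]
  constructor
  · rintro hX ⟨x, hx, x', hx', n, h1, h2, h3, h4, h5, i, hi, h6⟩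
    exact h6 (hX x hx x' hx' n h1 h2 h3 h4 (fun i h0 h1 => h5 i ⟨h0, h1⟩) i hi.1 hi.2)
  · intro hX x hx x' hx' n h1 h2 h3 h4 h5 i h0 hn
    by_contra h6
    exact hX ⟨x, hx, x', hx', n, h1, h2, h3, h4, (fun i hi => h5 i hi.1 hi.2), i, ⟨h0, hn⟩, h6⟩

theorem mea_alph_meas (hV : VIEStmt) (N : ℕ) :
    MeasurableSet {X : NC | ∀ x ∈ X, ∀ i, x i < N} := by
  have hO : IsOpen {p : (ℤ → ℕ) × (ℤ → ℕ) | ∃ i, ¬ p.1 i < N} := by
    have : {p : (ℤ → ℕ) × (ℤ → ℕ) | ∃ i, ¬ p.1 i < N} =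
        ⋃ i : ℤ, (fun p : (ℤ → ℕ) × (ℤ → ℕ) => p.1 i) ⁻¹' {k | ¬ k < N} := by
      ext p
      simp
    rw [this]
    exact isOpen_iUnion fun i => (isOpen_discrete _).preimage
      ((continuous_apply i).comp continuous_fst)
  have h := (hV.1 _ hO).measurableSet.compl
  convert h using 1
  ext X
  simp only [Set.mem_setOf_eq, Set.mem_compl_iff]
  constructor
  · rintro hX ⟨x, hx, x', _, i, hi⟩
    exact hi (hX x hx i)
  · intro hX x hx i
    by_contra hi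
    exact hX ⟨x, hx, x, hx, i, hi⟩

/-- the code `Φ k` gives a member of `PS N X C` -/
def MeaGood (N : ℕ) (φ : (ℤ → ℕ) → (ℤ → ℕ)) (hφ : Continuous φ) (C : Set (ℤ → ℕ)) (X : NC) :
    Prop :=
  Set.InjOn φ (X : Set (ℤ → ℕ)) ∧ (∀ y ∈ X.map φ hφ, ∀ i, y i < N) ∧
    MeaCond id φ X C ∧ MeaCond φ id X C

theorem mea_good_meas (hV : VIEStmt) (N : ℕ) (φ : (ℤ → ℕ) → (ℤ → ℕ)) (hφ : Continuous φ)
    (hs : ∀ x (n : ℤ), φ (sh n x) = sh n (φ x)) {C : Set (ℤ → ℕ)} (hC : IsOpen C) :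
    MeasurableSet {X : MeaP N | MeaGood N φ hφ C X.1} := by
  have h1 : MeasurableSet {X : MeaP N | Set.InjOn φ (X.1 : Set (ℤ → ℕ))} := by
    have hm : Measurable fun X : MeaP N => (⟨X.1, X.2.1⟩ : {X : NC // IsMinSubshift X}) :=
      measurable_subtype_coe.subtype_mk
    exact hm (hV.2 φ hφ hs)
  have h2 : MeasurableSet {X : MeaP N | ∀ y ∈ X.1.map φ hφ, ∀ i, y i < N} := by
    have hm : Measurable fun X : MeaP N => X.1.map φ hφ :=
      hφ.nonemptyCompacts_map.measurable.comp measurable_subtype_coe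
    exact hm (mea_alph_meas hV N)
  have h3 : MeasurableSet {X : MeaP N | MeaCond id φ X.1 C} :=
    measurable_subtype_coe (mea_cond_meas hV continuous_id hφ hC)
  have h4 : MeasurableSet {X : MeaP N | MeaCond φ id X.1 C} :=
    measurable_subtype_coe (mea_cond_meas hV hφ continuous_id hC)
  exact h1.inter (h2.inter (h3.inter h4))

theorem mea_PS_iff (hCHL : CHLStmt) (N : ℕ) (Φ : ℕ → (ℤ → ℕ) → (ℤ → ℕ))
    (hΦ : ∀ k, Continuous (Φ k)) (hs : ∀ k x (n : ℤ), Φ k (sh n x) = sh n (Φ k x))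
    (hcod : ∀ X Y f g r, IsMinSubshift X → IsConj X Y f g r → ∃ k, ∀ x ∈ X, Φ k x = f x)
    (X Y : NC) (hX : IsMinSubshift X) (C : Set (ℤ → ℕ)) :
    Y ∈ PS N X C ↔ ∃ k, MeaGood N (Φ k) (hΦ k) C X ∧ X.map (Φ k) (hΦ k) = Y := by
  constructor
  · rintro ⟨hYN, f, g, r, hc, hl, hl'⟩
    obtain ⟨k, hk⟩ := hcod X Y f g r hX hc
    have hmap : X.map (Φ k) (hΦ k) = Y := by
      apply SetLike.coe_injective
      rw [NonemptyCompacts.coe_map]
      ext y
      constructor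
      · rintro ⟨x, hx, rfl⟩
        rw [hk x hx]
        exact hc.maps x hx
      · intro hy
        exact ⟨g y, hc.maps' y hy, by rw [hk _ (hc.maps' y hy)]; exact hc.right y hy⟩
    refine ⟨k, ⟨?_, ?_, ?_, ?_⟩, hmap⟩
    · intro x hx x' hx' hxx
      rw [hk x hx, hk x' hx'] at hxx
      rw [← hc.left x hx, ← hc.left x' hx', hxx]
    · rw [hmap]
      exact hYN
    · intro x hx x' hx' n h1 h2 h3 h4 h5 i h0 hn
      rw [hk x hx, hk x' hx']
      exact hl x hx x' hx' n h1 h2 h3 h4 h5 i h0 hn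
    · intro x hx x' hx' n h1 h2 h3 h4 h5 i h0 hn
      have e := hl' (f x) (hc.maps x hx) (f x') (hc.maps x' hx') n ⟨x, ⟨hx, h1⟩, rfl⟩
        ⟨x', ⟨hx', h2⟩, rfl⟩
        ⟨sh n x, ⟨mea_sh_mem hX n x hx, h3⟩, hc.comm x hx n⟩
        ⟨sh n x', ⟨mea_sh_mem hX n x' hx', h4⟩, hc.comm x' hx' n⟩
        (fun i h0 hn => by
          have := h5 i h0 hn
          rwa [hk x hx, hk x' hx'] at this) i h0 hn
      rwa [hc.left x hx, hc.left x' hx'] at e
  · rintro ⟨k, ⟨hinj, hN, hl, hl'⟩, hmap⟩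
    have himg : Φ k '' (X : Set (ℤ → ℕ)) = Y := by
      rw [← hmap, NonemptyCompacts.coe_map]
    obtain ⟨g, r, hc⟩ := hCHL.2 X Y (Φ k) hX (hΦ k).continuousOn (fun x _ n => hs k x n) hinj himg
    refine ⟨?_, Φ k, g, r, hc, hl, ?_⟩
    · rw [← hmap]
      exact hN
    · rintro y hy y' hy' n ⟨x, ⟨hx, h1⟩, rfl⟩ ⟨x', ⟨hx', h2⟩, rfl⟩ ⟨z, ⟨hz, h3⟩, hze⟩
        ⟨z', ⟨hz', h4⟩, hze'⟩ h5 i h0 hn
      rw [← hs] at hze hze'
      have e1 := hinj hz (mea_sh_mem hX n x hx) hze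
      have e2 := hinj hz' (mea_sh_mem hX n x' hx') hze'
      rw [e1] at h3
      rw [e2] at h4
      rw [hc.left x hx, hc.left x' hx']
      exact hl' x hx x' hx' n h1 h2 h3 h4 h5 i h0 hn

/-- the sets with nonempty intersection with an open set -/
theorem mea_hit (hV : VIEStmt) {C : Set (ℤ → ℕ)} (hC : IsOpen C) :
    MeasurableSet {X : NC | ((X : Set (ℤ → ℕ)) ∩ C).Nonempty} := by
  have h := (hV.1 (Prod.fst ⁻¹' C) (hC.preimage continuous_fst)).measurableSet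
  convert h using 1
  ext X
  constructor
  · rintro ⟨x, hx, hxC⟩
    exact ⟨x, hx, x, hx, hxC⟩
  · rintro ⟨x, hx, x', _, hxC⟩
    exact ⟨x, hx, hxC⟩

open Classical in
/-- the number of elements of `PS N X C` -/
noncomputable def meaCnt (N : ℕ) (C : Set (ℤ → ℕ)) (X : MeaP N) : ℕ :=
  if ((X.1 : Set (ℤ → ℕ)) ∩ C).Nonempty then (PS N X.1 C).ncard else 0

theorem mea_cnt_meas (hV : VIEStmt) (hCHL : CHLStmt) (hCOD : CODStmt) (hPSF : PSFStmt) (N : ℕ)
    {C : Set (ℤ → ℕ)} (hC : IsOpen C) : Measurable (meaCnt N C) := by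
  obtain ⟨Φ, hΦ, hs, hcod⟩ := hCOD
  refine measurable_of_Ici fun j => ?_
  rcases Nat.eq_zero_or_pos j with rfl | hj
  · have : meaCnt N C ⁻¹' Set.Ici 0 = Set.univ := by
      ext X
      simp
    rw [this]
    exact MeasurableSet.univ
  have key : meaCnt N C ⁻¹' Set.Ici j =
      {X : MeaP N | ((X.1 : Set (ℤ → ℕ)) ∩ C).Nonempty} ∩
      ⋃ s : {s : Finset ℕ // s.card = j}, ((⋂ k ∈ s.1, {X : MeaP N | MeaGood N (Φ k) (hΦ k) C X.1}) ∩
        ⋂ k ∈ s.1, ⋂ l ∈ s.1, ⋂ (_ : k ≠ l),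
          {X : MeaP N | X.1.map (Φ k) (hΦ k) ≠ X.1.map (Φ l) (hΦ l)}) := by
    ext X
    simp only [Set.mem_preimage, Set.mem_Ici, Set.mem_inter_iff, Set.mem_setOf_eq,
      Set.mem_iUnion, Set.mem_iInter, meaCnt]
    constructor
    · intro h
      by_cases hX : ((X.1 : Set (ℤ → ℕ)) ∩ C).Nonempty
      · refine ⟨hX, ?_⟩
        rw [if_pos hX] at h
        obtain ⟨T, hT, hTj⟩ := Set.exists_subset_card_eq h
        have hTf : T.Finite := Set.finite_of_ncard_pos (by omega)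
        have hch : ∀ Y ∈ T, ∃ k, MeaGood N (Φ k) (hΦ k) C X.1 ∧ X.1.map (Φ k) (hΦ k) = Y :=
          fun Y hY => (mea_PS_iff hCHL N Φ hΦ hs hcod X.1 Y X.2.1 C).1 (hT hY)
        choose! κ hκ1 hκ2 using hch
        have hinj : Set.InjOn κ (hTf.toFinset : Set NC) := by
          intro Y hY Y' hY' hYY
          simp only [Set.Finite.coe_toFinset] at hY hY'
          have e1 := hκ2 Y hY
          have e2 := hκ2 Y' hY'
          rw [← e1, ← e2]
          simp only [hYY]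
        refine ⟨⟨hTf.toFinset.image κ, ?_⟩, ?_, ?_⟩
        · rw [Finset.card_image_of_injOn hinj, ← hTj, Set.ncard_eq_toFinset_card T hTf]
        · intro k hk
          obtain ⟨Y, hY, rfl⟩ := Finset.mem_image.1 hk
          exact hκ1 Y ((Set.Finite.mem_toFinset hTf).1 hY)
        · intro k hk l hl hkl
          obtain ⟨Y, hY, rfl⟩ := Finset.mem_image.1 hk
          obtain ⟨Y', hY', rfl⟩ := Finset.mem_image.1 hl
          have e1 := hκ2 Y ((Set.Finite.mem_toFinset hTf).1 hY)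
          have e2 := hκ2 Y' ((Set.Finite.mem_toFinset hTf).1 hY')
          intro he
          rw [e1, e2] at he
          exact hkl (by rw [he])
      · rw [if_neg hX] at h
        omega
    · rintro ⟨hX, ⟨s, hsj⟩, h1, h2⟩
      rw [if_pos hX]
      have hfin : (PS N X.1 C).Finite := hPSF N X.1 C X.2.1 ⟨C, hC, rfl⟩ hX
      have hsub : (fun k => X.1.map (Φ k) (hΦ k)) '' (s : Set ℕ) ⊆ PS N X.1 C := by
        rintro _ ⟨k, hk, rfl⟩
        exact (mea_PS_iff hCHL N Φ hΦ hs hcod X.1 _ X.2.1 C).2 ⟨k, h1 k hk, rfl⟩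
      have hinj : Set.InjOn (fun k => X.1.map (Φ k) (hΦ k)) (s : Set ℕ) := by
        intro k hk l hl hkl
        by_contra hne
        exact h2 k hk l hl hne hkl
      have := Set.ncard_le_ncard hsub hfin
      rw [Set.ncard_image_of_injOn hinj, Set.ncard_coe_finset, hsj] at this
      exact this
  rw [key]
  refine MeasurableSet.inter (measurable_subtype_coe (mea_hit hV hC)) ?_
  refine MeasurableSet.iUnion fun s => MeasurableSet.inter ?_ ?_
  · exact Finset.measurableSet_biInter _ fun k _ => mea_good_meas hV N (Φ k) (hΦ k) (hs k) hC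
  · refine Finset.measurableSet_biInter _ fun k _ => Finset.measurableSet_biInter _ fun l _ =>
      MeasurableSet.iInter fun _ => ?_
    have hc : IsClosed {X : NC | X.map (Φ k) (hΦ k) = X.map (Φ l) (hΦ l)} :=
      isClosed_eq (hΦ k).nonemptyCompacts_map (hΦ l).nonemptyCompacts_map
    exact measurable_subtype_coe hc.measurableSet.compl

theorem mea_mem_meas (hV : VIEStmt) (hCHL : CHLStmt) (hCOD : CODStmt) (N : ℕ)
    {C : Set (ℤ → ℕ)} (hC : IsOpen C) :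
    MeasurableSet {p : MeaP N × NC | p.2 ∈ PS N p.1.1 C} := by
  obtain ⟨Φ, hΦ, hs, hcod⟩ := hCOD
  have key : {p : MeaP N × NC | p.2 ∈ PS N p.1.1 C} =
      ⋃ k : ℕ, (Prod.fst ⁻¹' {X : MeaP N | MeaGood N (Φ k) (hΦ k) C X.1}) ∩
        {p : MeaP N × NC | p.1.1.map (Φ k) (hΦ k) = p.2} := by
    ext p
    simp only [Set.mem_setOf_eq, Set.mem_iUnion, Set.mem_inter_iff, Set.mem_preimage]
    exact mea_PS_iff hCHL N Φ hΦ hs hcod p.1.1 p.2 p.1.2.1 C
  rw [key]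
  refine MeasurableSet.iUnion fun k => MeasurableSet.inter ?_ ?_
  · exact measurable_fst (mea_good_meas hV N (Φ k) (hΦ k) (hs k) hC)
  · have hc : IsClosed {p : NC × NC | p.1.map (Φ k) (hΦ k) = p.2} :=
      isClosed_eq ((hΦ k).nonemptyCompacts_map.comp continuous_fst) continuous_snd
    have hm : Measurable fun p : MeaP N × NC => ((p.1.1 : NC), p.2) :=
      (measurable_subtype_coe.comp measurable_fst).prodMk measurable_snd
    exact hm hc.measurableSet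

/-- words as clopen sets -/
def meaW (N m : ℕ) (u : Fin (2 * m + 1) → Fin N) : Set (ℤ → ℕ) :=
  {x | ∀ i : Fin (2 * m + 1), x (((i : ℕ) : ℤ) - m) = u i}

theorem mea_W_open (N m : ℕ) (u : Fin (2 * m + 1) → Fin N) : IsOpen (meaW N m u) := by
  have : meaW N m u = ⋂ i : Fin (2 * m + 1),
      (fun x : ℤ → ℕ => x (((i : ℕ) : ℤ) - m)) ⁻¹' {(u i : ℕ)} := by
    ext x
    simp [meaW]
  rw [this]
  exact isOpen_iInter_of_finite fun i => (isOpen_discrete _).preimage (continuous_apply _)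

theorem mea_cyl_eq (N m : ℕ) (u : Fin (2 * m + 1) → Fin N) (x : ℤ → ℕ) (hx : x ∈ meaW N m u) :
    cyl m x = meaW N m u := by
  ext y
  constructor
  · intro hy i
    rw [← hx i]
    apply hy
    rw [abs_le]
    have := i.2
    constructor <;> omega
  · intro hy i hi
    rw [abs_le] at hi
    have h1 := hy ⟨(i + m).toNat, by omega⟩
    have h2 := hx ⟨(i + m).toNat, by omega⟩
    have h3 : (((⟨(i + m).toNat, by omega⟩ : Fin (2 * m + 1)) : ℕ) : ℤ) - m = i := by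
      simp only
      omega
    rw [h3] at h1 h2
    rw [h1, h2]

/-- the term of a word -/
noncomputable def meaT (N m : ℕ) (u : Fin (2 * m + 1) → Fin N) (p : MeaP N × NC) : ℝ :=
  open Classical in
  if ((p.1.1 : Set (ℤ → ℕ)) ∩ meaW N m u).Nonempty then
    (if p.2 ∈ PS N p.1.1 (meaW N m u) then ((meaCnt N (meaW N m u) p.1 : ℕ) : ℝ)⁻¹ else 0) else 0

/-- the indicator of a word -/
noncomputable def meaI (N m : ℕ) (u : Fin (2 * m + 1) → Fin N) (X : MeaP N) : ℝ :=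
  open Classical in
  if ((X.1 : Set (ℤ → ℕ)) ∩ meaW N m u).Nonempty then 1 else 0

theorem mea_PS_inter (N : ℕ) (X : NC) (hX : IsMinSubshift X) (C : Set (ℤ → ℕ)) :
    PS N X ((X : Set (ℤ → ℕ)) ∩ C) = PS N X C := by
  have h1 : (X : Set (ℤ → ℕ)) ∩ ((X : Set (ℤ → ℕ)) ∩ C) = (X : Set (ℤ → ℕ)) ∩ C := by
    ext x
    simp
  have h2 : ∀ f, Loc f X ((X : Set (ℤ → ℕ)) ∩ C) ↔ Loc f X C := by
    intro f
    constructor
    · intro h x hx x' hx' n a1 a2 a3 a4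
      exact h x hx x' hx' n ⟨hx, a1⟩ ⟨hx', a2⟩ ⟨mea_sh_mem hX n x hx, a3⟩
        ⟨mea_sh_mem hX n x' hx', a4⟩
    · intro h x hx x' hx' n a1 a2 a3 a4
      exact h x hx x' hx' n a1.2 a2.2 a3.2 a4.2
  ext Y
  simp only [PS, Set.mem_setOf_eq, h1, h2]

theorem mea_cyl_image (N m : ℕ) (X : MeaP N) :
    Cyl X.1 m = (fun u => (X.1 : Set (ℤ → ℕ)) ∩ meaW N m u) ''
      {u | ((X.1 : Set (ℤ → ℕ)) ∩ meaW N m u).Nonempty} := by
  ext C
  constructor
  · rintro ⟨x, hx, rfl⟩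
    have hxu : x ∈ meaW N m fun i => ⟨x (((i : ℕ) : ℤ) - m), X.2.2 x hx _⟩ := fun i => rfl
    exact ⟨fun i => ⟨x (((i : ℕ) : ℤ) - m), X.2.2 x hx _⟩, ⟨x, hx, hxu⟩, by
      simp only [mea_cyl_eq N m _ x hxu]⟩
  · rintro ⟨u, ⟨x, hx, hxu⟩, rfl⟩
    exact ⟨x, hx, by simp only [mea_cyl_eq N m u x hxu]⟩

theorem mea_inj (N m : ℕ) (X : MeaP N) :
    Set.InjOn (fun u => (X.1 : Set (ℤ → ℕ)) ∩ meaW N m u)
      {u | ((X.1 : Set (ℤ → ℕ)) ∩ meaW N m u).Nonempty} := by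
  rintro u ⟨x, hx, hxu⟩ v _ huv
  have : x ∈ (X.1 : Set (ℤ → ℕ)) ∩ meaW N m v := by
    have h : x ∈ (X.1 : Set (ℤ → ℕ)) ∩ meaW N m u := ⟨hx, hxu⟩
    simp only at huv
    rwa [huv] at h
  funext i
  apply Fin.ext
  rw [← hxu i, ← this.2 i]

theorem mea_lev (N m : ℕ) (p : MeaP N × NC) :
    lev N m p.1.1 p.2 = (∑ u, meaI N m u p.1)⁻¹ * ∑ u, meaT N m u p := by
  classical
  have hS : ({u | ((p.1.1 : Set (ℤ → ℕ)) ∩ meaW N m u).Nonempty} :
      Set (Fin (2 * m + 1) → Fin N)) =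
      ((Finset.univ.filter fun u => ((p.1.1 : Set (ℤ → ℕ)) ∩ meaW N m u).Nonempty :
        Finset (Fin (2 * m + 1) → Fin N)) : Set (Fin (2 * m + 1) → Fin N)) := by
    ext u
    simp
  unfold lev
  congr 1
  · rw [mea_cyl_image N m p.1, Set.ncard_image_of_injOn (mea_inj N m p.1), hS,
      Set.ncard_coe_finset, Finset.card_filter]
    push_cast
    rfl
  · rw [mea_cyl_image N m p.1, finsum_mem_image (mea_inj N m p.1), hS, finsum_mem_coe_finset,
      Finset.sum_filter]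
    refine Finset.sum_congr rfl fun u _ => ?_
    simp only [meaT, unif, mea_PS_inter N p.1.1 p.1.2.1, meaCnt]
    by_cases h : ((p.1.1 : Set (ℤ → ℕ)) ∩ meaW N m u).Nonempty
    · simp only [if_pos h]
    · simp only [if_neg h]

theorem mea_T_meas (hV : VIEStmt) (hCHL : CHLStmt) (hCOD : CODStmt) (hPSF : PSFStmt) (N m : ℕ)
    (u : Fin (2 * m + 1) → Fin N) : Measurable (meaT N m u) := by
  classical
  have hC := mea_W_open N m u
  have h1 : MeasurableSet {p : MeaP N × NC |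
      ((p.1.1 : Set (ℤ → ℕ)) ∩ meaW N m u).Nonempty} :=
    (measurable_subtype_coe.comp measurable_fst) (mea_hit hV hC)
  have h2 := mea_mem_meas hV hCHL hCOD N hC
  have h3 : Measurable fun p : MeaP N × NC => ((meaCnt N (meaW N m u) p.1 : ℕ) : ℝ)⁻¹ :=
    (measurable_from_top.comp ((mea_cnt_meas hV hCHL hCOD hPSF N hC).comp measurable_fst)).inv
  unfold meaT
  exact Measurable.ite h1 (Measurable.ite h2 h3 measurable_const) measurable_const

theorem mea_I_meas (hV : VIEStmt) (N m : ℕ) (u : Fin (2 * m + 1) → Fin N) :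
    Measurable (meaI N m u) := by
  classical
  have h1 : MeasurableSet {X : MeaP N | ((X.1 : Set (ℤ → ℕ)) ∩ meaW N m u).Nonempty} :=
    measurable_subtype_coe (mea_hit hV (mea_W_open N m u))
  unfold meaI
  exact Measurable.ite h1 measurable_const measurable_const

theorem mea (hV : VIEStmt) (hCHL : CHLStmt) (hCOD : CODStmt) (hPSF : PSFStmt) : MEAStmt := by
  intro N
  refine ⟨mea_alph_meas hV N, ?_⟩
  have h : (fun p : MeaP N × NC => Rei N p.1.1 p.2) = fun p : MeaP N × NC =>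
      (N : ℝ)⁻¹ * ∑ m ∈ Finset.range N,
        ((∑ u, meaI N (N + m) u p.1)⁻¹ * ∑ u, meaT N (N + m) u p) := by
    funext p
    unfold Rei
    congr 1
    exact Finset.sum_congr rfl fun m _ => mea_lev N (N + m) p
  rw [h]
  refine Measurable.const_mul (Finset.measurable_sum _ fun m _ => ?_) _
  refine Measurable.mul (Measurable.inv ?_) ?_
  · exact Finset.measurable_sum _ fun u _ => (mea_I_meas hV N (N + m) u).comp measurable_fst
  · exact Finset.measurable_sum _ fun u _ => mea_T_meas hV hCHL hCOD hPSF N (N + m) u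

end MS
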